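import Pool.Agent.U723.CU.Main

/-!
# Maps from affine spaces of any dimension to a cubic hypersurface, of degree at most three

Let `X = (F = 0)` be a smooth cubic hypersurface of dimension `n ≥ 3`, and let `G` be a rational map
from an affine space of an **arbitrary** dimension `N` to `X` which is given by polynomials of degree at
most three. We suppose that `G` has a multisection of odd degree: for some field `M` of odd degree over
the function field `ℂ(X)` there is a point `τ` of the affine space over `M` such that `G(τ)` is the
generic point of `X`. Examples: a dominant rational map `A^n ⇢ X` of odd degree (`N = n`, the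
point `τ` is the generic point of `A^n`); a rational map `A^N ⇢ X` with a rational section `X ⇢ A^N`
(`M = ℂ(X)`; so `X` is a retract of an affine space by a retraction of degree at most three), in
particular the first component of a birational map from `A^N` to the product of `X` with an affine
space; a closed point of odd degree in the generic fibre of `G`.

* For every smooth `X` it follows that `X` contains a linear subspace of dimension `k`,
  `1 ≤ k ≤ n / 2`, such that the projection of `X` from it (a quadric bundle over a projective space)
  has a rational section. In particular `X` is rational.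
* For very general `X` there is no such map.

The starting files and `MP_2619d0_ag.LineRuledAllDimensions` treat the case `N = n` where `M` is the
field of rational functions of the affine space.

Idea of the proof. We make `G` homogeneous (cubic forms on a projective space `P`), and we replace `P` by
the linear span of the closure of `τ`, so that the coordinates of `τ` are linearly independent over
`ℂ`. A restriction to a linear subspace of dimension `n` shows that the forms have a common zero `b`
(starting files: bounds for degrees). Suppose first that some form vanishes at `b` to the first order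
only. The line through `b` and `τ` is mapped to a conic **over `M`** through the generic point
`x = G(τ)`, which passes through a point `a ≠ 0` of a linear subspace `W` of `X` which is defined over
`ℂ`. The plane of the conic meets `X` in the conic and in a residual line over `M`; so the third point
of the line through `x` and `a` lies on a line over `M`, and if it is generic, it has even degree
(starting files, project LI). So the points of the line through `x` and `a` give a point of odd degree
over the generic point of the ambient projective space, and by the theorem of Springer the quadric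
bundle of `W` has a section. (The starting files have this argument for a conic over a subfield `L`
with `M = L(t)` and `x` the point with parameter `t`.) Now suppose that all forms vanish to the second
order at every common zero. Then the common zeros are a linear subspace `Λ`, and the map is linear on
the spaces which contain `Λ` as a hyperplane; it is not constant on all of them, because its
restriction to a complement of `Λ` has no common zeros. So there is a line in `X` through `G(τ')` for
every point `τ'` over `M(s)` near `τ`; its limit for `s → 0` is a line over `M` through `x`, which is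
impossible.
-/

set_option autoImplicit false

namespace Pool.Agent.Results.MP_2619d0_ag.CubicPointsOddIndex

open MvPolynomial

/-- `F = 0` is a smooth cubic hypersurface of dimension `n`: `F` is a cubic form in `n + 2` variables,
and its partial derivatives have no common zero besides the origin. -/
def SmoothCubic {n : ℕ} (F : MvPolynomial (Fin (n + 2)) ℂ) : Prop :=
  F.IsHomogeneous 3 ∧ ∀ z : Fin (n + 2) → ℂ, (∀ i, eval z (pderiv i F) = 0) → z = 0

/-- `x` is a generic point of the hypersurface `F = 0` with coordinates in an extension field `M` of
the complex numbers: `F` vanishes at `x`, and every form vanishing at `x` is divisible by `F`. -/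
def GenericPoint {n : ℕ} {M : Type} [Field M] [Algebra ℂ M] (F : MvPolynomial (Fin (n + 2)) ℂ)
    (x : Fin (n + 2) → M) : Prop :=
  aeval x F = 0 ∧ ∀ (e : ℕ) (H : MvPolynomial (Fin (n + 2)) ℂ), H.IsHomogeneous e →
    aeval x H = 0 → F ∣ H

/-- the field generated over `ℂ` by the ratios of the coordinates of `x`; for a generic point of `X`
it is the function field of `X` -/
noncomputable def functionField {n : ℕ} {M : Type} [Field M] [Algebra ℂ M] (x : Fin (n + 2) → M) :
    IntermediateField ℂ M :=
  IntermediateField.adjoin ℂ {z | ∃ i j, z = x i / x j}

/-- There is a rational map from an affine space (of some dimension `N`) to the hypersurface `F = 0`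
which is given by polynomials `G i` of degree at most three (`F` vanishes at `G`), with a multisection
of odd degree: for some field `M ⊇ ℂ` and some `τ ∈ M ^ N` the point `G(τ)` is a generic point of the
hypersurface, and `M` has odd degree over its function field. -/
def HasOddCubicMap {n : ℕ} (F : MvPolynomial (Fin (n + 2)) ℂ) : Prop :=
  ∃ (N : ℕ) (G : Fin (n + 2) → MvPolynomial (Fin N) ℂ), (∀ i, (G i).totalDegree ≤ 3) ∧
    aeval G F = 0 ∧ ∃ (M : Type) (_ : Field M) (_ : Algebra ℂ M) (τ : Fin N → M),
      GenericPoint F (fun i => aeval τ (G i)) ∧
      Odd (Module.finrank (functionField fun i => aeval τ (G i)) M)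

/-- the vectors `v 0, …, v k` are linearly independent, and the linear subspace of (projective)
dimension `k` which they span is contained in `F = 0` -/
def LinearInside {n k : ℕ} (F : MvPolynomial (Fin (n + 2)) ℂ)
    (v : Fin (k + 1) → Fin (n + 2) → ℂ) : Prop :=
  LinearIndependent ℂ v ∧ ∀ a : Fin (k + 1) → ℂ, eval (fun i => ∑ l, a l * v l i) F = 0

/-- The projection of the hypersurface from the span of `v 0, …, v k` has a rational section: for a
complement `e 0, …, e m` of the span there are rational functions `c 0, …, c k` in the `m` variables
`X_0, …, X_{m-1}` such that `F` vanishes at `∑ c_a v_a + e_0 + X_0 e_1 + … + X_{m-1} e_m`. -/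
def HasSection (m : ℕ) {n k : ℕ} (F : MvPolynomial (Fin (n + 2)) ℂ)
    (v : Fin (k + 1) → Fin (n + 2) → ℂ) : Prop :=
  ∃ e : Fin (m + 1) → Fin (n + 2) → ℂ, LinearIndependent ℂ (Fin.append v e) ∧
    ∃ c : Fin (k + 1) → FractionRing (MvPolynomial (Fin m) ℂ),
      aeval (fun i => ∑ a, c a * algebraMap ℂ (FractionRing (MvPolynomial (Fin m) ℂ)) (v a i) +
        (algebraMap ℂ (FractionRing (MvPolynomial (Fin m) ℂ)) (e 0 i) +
          ∑ j : Fin m, algebraMap (MvPolynomial (Fin m) ℂ)
              (FractionRing (MvPolynomial (Fin m) ℂ)) (X j) *
            algebraMap ℂ (FractionRing (MvPolynomial (Fin m) ℂ)) (e j.succ i))) F = 0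

/-- the coefficients of a cubic form -/
noncomputable def coeffs {n : ℕ} (F : MvPolynomial (Fin (n + 2)) ℂ) :
    {m : Fin (n + 2) →₀ ℕ // m.degree = 3} → ℂ := fun m => coeff m.1 F

/-- Let `n ≥ 3`. If a smooth cubic hypersurface `F = 0` of dimension `n` has a rational map from an
affine space of any dimension, given by polynomials of degree at most three, with a multisection of
odd degree, then it contains a linear subspace of dimension `k`, `1 ≤ k ≤ n / 2`, such that the
projection from it has a rational section; and there is no such rational map for all smooth cubic
hypersurfaces outside the zero sets of a countable set of nonzero polynomials in the coefficients. -/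
theorem result (n : ℕ) (hn : 3 ≤ n) :
    (∀ F : MvPolynomial (Fin (n + 2)) ℂ, SmoothCubic F → HasOddCubicMap F →
      ∃ (k m : ℕ) (v : Fin (k + 1) → Fin (n + 2) → ℂ), k + m = n ∧ 1 ≤ k ∧ k ≤ m ∧
        LinearInside F v ∧ HasSection m F v) ∧
    ∃ Ps : Set (MvPolynomial {m : Fin (n + 2) →₀ ℕ // m.degree = 3} ℂ), Ps.Countable ∧
      (0 : MvPolynomial {m : Fin (n + 2) →₀ ℕ // m.degree = 3} ℂ) ∉ Ps ∧
      ∀ F : MvPolynomial (Fin (n + 2)) ℂ, SmoothCubic F →
        (∀ P ∈ Ps, eval (coeffs F) P ≠ 0) → ¬ HasOddCubicMap F := by
  refine ⟨?_, ?_⟩
  · rintro F ⟨h3, hsm⟩ ⟨N, G, hG, hGF, M, _, _, τ, hgp, hodd⟩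
    obtain ⟨k, m, v, h1, h2, h4, h5, h6⟩ :=
      Pool.Agent.U723.CU.poly_sec hn h3 hsm G hG hGF τ hgp hodd
    exact ⟨k, m, v, h1, h2, h4, h5, h6⟩
  · obtain ⟨Ps, h1, h2, h3⟩ := Pool.Agent.R845.VG.very_general (n + 2) 3
    refine ⟨Ps, h1, h2, ?_⟩
    rintro F ⟨h4, hsm⟩ hP ⟨N, G, hG, hGF, M, _, _, τ, hgp, hodd⟩
    exact (Nat.not_even_iff_odd.2 hodd)
      (Pool.Agent.U723.CU.poly_even hn h4 hsm (h3 F hP) G hG hGF τ hgp)

end Pool.Agent.Results.MP_2619d0_ag.CubicPointsOddIndex
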