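import Pool.Agent.U351.CH.Main

/-!
# Cubic hypersurfaces of every dimension: parametrizations of odd degree over lines

Let `X = (F = 0)` be **any** smooth cubic hypersurface of dimension `n ≥ 3` (not only a very general
one). Let `W` be a linear subspace of `X` (possibly empty). We consider families of rational curves on
`X`, parametrized by a field `L` (with `M = L(t)`, of arbitrary degree), whose images under the
projection from `W` are lines or points, such that `M` has odd degree over the function field of `X`.

* (A) If such a family exists for `W`, then `W` is contained in a linear subspace `V ⊆ X` of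
  dimension `k` with `1 ≤ k ≤ n / 2` such that the projection of `X` from `V` (a quadric bundle over
  the projective space of dimension `m = n - k`) has a rational section.
* (B) If some polynomials of degree at most three in `n` variables give a dominant rational map of
  odd degree to `X`, then `X` contains a linear subspace of dimension `k`, `1 ≤ k ≤ n / 2`, whose
  quadric bundle has a rational section.
* (C) For every linear subspace `V` of dimension `k ≥ 1` in `X` the following are equivalent: the
  quadric bundle of `V` has a rational section; there is a family of odd degree whose projections from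
  `V` are lines or points; there is a family of degree one in the fibres of the projection from `V`;
  `X` has a birational parametrization over the projection from `V`. In particular `X` is rational in
  all these cases.

So a smooth cubic hypersurface with a unirational parametrization of odd degree of one of these kinds
is rational, and it is rational because of a quadric bundle with a section.

The case `n = 4` of (A) and (C) is the result of `MP_6fa476_ag.LineRuledClassification`; for very
general `X` the starting files show that the families in (A), (B) do not exist. The proof uses the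
starting files (projects N150/CF, R845/E3): a family of odd degree gives a zero of the quadratic form
of the projection over an extension of odd degree, so a zero by the theorem of Springer. New here: all
dimensions, by adapted coordinates for a linear subspace of arbitrary dimension.
-/

set_option autoImplicit false

namespace Pool.Agent.Results.MP_2619d0_ag.LineRuledAllDimensions

open MvPolynomial

/-- `F = 0` is a smooth cubic hypersurface of dimension `n`: `F` is a cubic form in `n + 2` variables,
and its partial derivatives have no common zero besides the origin. -/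
def SmoothCubic {n : ℕ} (F : MvPolynomial (Fin (n + 2)) ℂ) : Prop :=
  F.IsHomogeneous 3 ∧ ∀ z : Fin (n + 2) → ℂ, (∀ i, eval z (pderiv i F) = 0) → z = 0

/-- `x` is a generic point of the hypersurface `F = 0` with coordinates in an extension field `M` of
the complex numbers: `F` vanishes at `x`, and every form vanishing at `x` is divisible by `F`. -/
def GenericPoint {N : ℕ} {M : Type} [Field M] [Algebra ℂ M] (F : MvPolynomial (Fin N) ℂ)
    (x : Fin N → M) : Prop :=
  aeval x F = 0 ∧ ∀ (e : ℕ) (H : MvPolynomial (Fin N) ℂ), H.IsHomogeneous e →
    aeval x H = 0 → F ∣ H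

/-- the field generated over `ℂ` by the ratios of the coordinates of `x`; for a generic point of `X`
it is the function field of `X` -/
noncomputable def functionField {N : ℕ} {M : Type} [Field M] [Algebra ℂ M] (x : Fin N → M) :
    IntermediateField ℂ M :=
  IntermediateField.adjoin ℂ {z | ∃ i j, z = x i / x j}

/-- the linear span of the vectors `A 0, …, A (r - 1)` is contained in the hypersurface `F = 0` -/
def SpanInside {N r : ℕ} (F : MvPolynomial (Fin N) ℂ) (A : Fin r → Fin N → ℂ) : Prop :=
  ∀ a : Fin r → ℂ, eval (fun i => ∑ l, a l * A l i) F = 0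

/-- the vectors `v 0, …, v k` are linearly independent, and the linear subspace of (projective)
dimension `k` which they span is contained in `F = 0` -/
def LinearInside {N k : ℕ} (F : MvPolynomial (Fin N) ℂ) (v : Fin (k + 1) → Fin N → ℂ) : Prop :=
  LinearIndependent ℂ v ∧ SpanInside F v

/-- There is a family of rational curves on `F = 0`, with field of parameters `L` and `M = L(t)`, of
degree `d` over the hypersurface (a generic point `x` over `M` such that `M` has degree `d` over the
function field), whose image under the projection from the span `W` of the vectors `A l` is a line or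
a point over `L`: modulo `W` the point `x` is proportional to `t β + γ` with `β`, `γ` over `L`. -/
def LineRuled {N r : ℕ} (F : MvPolynomial (Fin N) ℂ) (A : Fin r → Fin N → ℂ) (d : ℕ) : Prop :=
  ∃ (M : Type) (_ : Field M) (_ : Algebra ℂ M) (L : IntermediateField ℂ M) (t : M)
    (x : Fin N → M) (s : M) (w : Fin r → M) (β γ : Fin N → M), Transcendental L t ∧
    IntermediateField.adjoin L {t} = ⊤ ∧ GenericPoint F x ∧
    Module.finrank (functionField x) M = d ∧ (∀ i, β i ∈ L) ∧ (∀ i, γ i ∈ L) ∧
    ∀ i, x i = s * (t * β i + γ i) + ∑ l, w l * algebraMap ℂ M (A l i)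

/-- The same with a family whose projections from `W` are points over `L` (`β = 0`): the curves of
the family are contained in the fibres of the projection from `W`. -/
def FibreRuled {N r : ℕ} (F : MvPolynomial (Fin N) ℂ) (A : Fin r → Fin N → ℂ) (d : ℕ) : Prop :=
  ∃ (M : Type) (_ : Field M) (_ : Algebra ℂ M) (L : IntermediateField ℂ M) (t : M)
    (x : Fin N → M) (s : M) (w : Fin r → M) (γ : Fin N → M), Transcendental L t ∧
    IntermediateField.adjoin L {t} = ⊤ ∧ GenericPoint F x ∧
    Module.finrank (functionField x) M = d ∧ (∀ i, γ i ∈ L) ∧
    ∀ i, x i = s * γ i + ∑ l, w l * algebraMap ℂ M (A l i)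

/-- The projection of the hypersurface from the span of `v 0, …, v k` has a rational section: for a
complement `e 0, …, e m` of the span there are rational functions `c 0, …, c k` in the `m` variables
`X_0, …, X_{m-1}` such that `F` vanishes at `∑ c_a v_a + e_0 + X_0 e_1 + … + X_{m-1} e_m`. -/
def HasSection (m : ℕ) {N k : ℕ} (F : MvPolynomial (Fin N) ℂ) (v : Fin (k + 1) → Fin N → ℂ) :
    Prop :=
  ∃ e : Fin (m + 1) → Fin N → ℂ, LinearIndependent ℂ (Fin.append v e) ∧
    ∃ c : Fin (k + 1) → FractionRing (MvPolynomial (Fin m) ℂ),
      aeval (fun i => ∑ a, c a * algebraMap ℂ (FractionRing (MvPolynomial (Fin m) ℂ)) (v a i) +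
        (algebraMap ℂ (FractionRing (MvPolynomial (Fin m) ℂ)) (e 0 i) +
          ∑ j : Fin m, algebraMap (MvPolynomial (Fin m) ℂ)
              (FractionRing (MvPolynomial (Fin m) ℂ)) (X j) *
            algebraMap ℂ (FractionRing (MvPolynomial (Fin m) ℂ)) (e j.succ i))) F = 0

/-- There is a birational parametrization of `F = 0` by the affine space of dimension `k + m`, given
by polynomials `G i`, which is compatible with the projection from the span of `v 0, …, v k`: modulo
this span the point `G` is `g (e_0 + X_k e_1 + … + X_{k+m-1} e_m)` for a complement `e`. (It is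
birational: `G` is a generic point, and the ratios of the `G i` generate the field of rational
functions in `k + m` variables.) -/
def BirationalOverProjection (m : ℕ) {N k : ℕ} (F : MvPolynomial (Fin N) ℂ)
    (v : Fin (k + 1) → Fin N → ℂ) : Prop :=
  ∃ (e : Fin (m + 1) → Fin N → ℂ) (G : Fin N → MvPolynomial (Fin (k + m)) ℂ)
    (g : MvPolynomial (Fin (k + m)) ℂ) (w : Fin (k + 1) → MvPolynomial (Fin (k + m)) ℂ),
    LinearIndependent ℂ (Fin.append v e) ∧
    GenericPoint F (fun i => algebraMap (MvPolynomial (Fin (k + m)) ℂ)
      (FractionRing (MvPolynomial (Fin (k + m)) ℂ)) (G i)) ∧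
    functionField (fun i => algebraMap (MvPolynomial (Fin (k + m)) ℂ)
      (FractionRing (MvPolynomial (Fin (k + m)) ℂ)) (G i)) = ⊤ ∧
    ∀ i, G i = g * (C (e 0 i) + ∑ j : Fin m, X (Fin.natAdd k j) * C (e j.succ i)) +
      ∑ a, w a * C (v a i)

/-- The tuple `G` of polynomials in `n` variables gives a dominant rational map to the
hypersurface `F = 0`: `F` vanishes at `G`, and every form vanishing at `G` is divisible by `F`. -/
def Dominant {n : ℕ} (F : MvPolynomial (Fin (n + 2)) ℂ)
    (G : Fin (n + 2) → MvPolynomial (Fin n) ℂ) : Prop :=
  aeval G F = 0 ∧ ∀ (e : ℕ) (H : MvPolynomial (Fin (n + 2)) ℂ), H.IsHomogeneous e →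
    aeval G H = 0 → F ∣ H

/-- the degree of the map given by `G`: the degree of the field of rational functions
`ℂ(t_1, …, t_n)` over its subfield generated over `ℂ` by all ratios `G i / G j` -/
noncomputable def mapDegree {n : ℕ} (G : Fin (n + 2) → MvPolynomial (Fin n) ℂ) : ℕ :=
  Module.finrank (functionField fun i => algebraMap (MvPolynomial (Fin n) ℂ)
    (FractionRing (MvPolynomial (Fin n) ℂ)) (G i)) (FractionRing (MvPolynomial (Fin n) ℂ))

/-- **Smooth cubic hypersurfaces of every dimension `n ≥ 3`.**

(A) A family of odd degree of rational curves whose projections from the linear subspace `W` (spanned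
by the `A l`, `r = 0` is allowed) of `F = 0` are lines or points exists only if `W` is contained in a
linear subspace of dimension `k`, `1 ≤ k ≤ n / 2`, of `F = 0` whose quadric bundle has a rational
section.

(B) A dominant rational map of odd degree given by polynomials of degree at most three exists only if
`F = 0` contains a linear subspace of dimension `k`, `1 ≤ k ≤ n / 2`, whose quadric bundle has a
rational section.

(C) For a linear subspace of dimension `k ≥ 1` in `F = 0` the existence of a rational section, of a
family of some odd degree over lines, of a family of degree one in the fibres, and of a birational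
parametrization over the projection are equivalent. -/
theorem result (n : ℕ) (hn : 3 ≤ n) (F : MvPolynomial (Fin (n + 2)) ℂ) (hF : SmoothCubic F) :
    (∀ (r : ℕ) (A : Fin r → Fin (n + 2) → ℂ) (d : ℕ), SpanInside F A → Odd d →
      LineRuled F A d → ∃ (k m : ℕ) (v : Fin (k + 1) → Fin (n + 2) → ℂ), k + m = n ∧ 1 ≤ k ∧
        k ≤ m ∧ LinearInside F v ∧ (∀ l, A l ∈ Submodule.span ℂ (Set.range v)) ∧
        HasSection m F v) ∧
    (∀ G : Fin (n + 2) → MvPolynomial (Fin n) ℂ, (∀ i, (G i).totalDegree ≤ 3) →
      Dominant F G → Odd (mapDegree G) → ∃ (k m : ℕ) (v : Fin (k + 1) → Fin (n + 2) → ℂ),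
        k + m = n ∧ 1 ≤ k ∧ k ≤ m ∧ LinearInside F v ∧ HasSection m F v) ∧
    ∀ (k m : ℕ) (v : Fin (k + 1) → Fin (n + 2) → ℂ), k + m = n → 1 ≤ k → LinearInside F v →
      List.TFAE [HasSection m F v, ∃ d, Odd d ∧ LineRuled F v d, FibreRuled F v 1,
        BirationalOverProjection m F v] := by
  obtain ⟨h3, hsm⟩ := hF
  refine ⟨?_, ?_, ?_⟩
  · intro r A d h1 h2 h
    obtain ⟨k, m, v, a1, a2, a3, a4, a5, a6⟩ := Pool.Agent.U351.CH.of_lr hn h3 hsm A h1 h2 h
    exact ⟨k, m, v, a1, a2, a3, a4, a5, a6⟩
  · intro G hG hdom hodd
    obtain ⟨k, m, v, a1, a2, a3, a4, a6⟩ :=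
      Pool.Agent.U351.CH.of_cub hn h3 hsm G hG hdom.1 hdom.2 hodd
    exact ⟨k, m, v, a1, a2, a3, a4, a6⟩
  · intro k m v hkm hk hv
    have hN : n + 2 = k + 1 + (m + 1) := by omega
    clear hn
    generalize n + 2 = N at hN F v
    subst hN
    have hf : ∀ {r : ℕ} (A : Fin r → Fin (k + 1 + (m + 1)) → ℂ) (d : ℕ), FibreRuled F A d →
        LineRuled F A d := by
      intro r A d h
      exact Pool.Agent.N150.CF.Fib.lr h
    have hs : HasSection m F v → FibreRuled F v 1 := fun h =>
      Pool.Agent.U351.CH.fib_of_sec hk h3 hsm hv h
    tfae_have 1 → 3 := hs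
    tfae_have 3 → 2 := fun h => ⟨1, odd_one, hf v 1 h⟩
    tfae_have 2 → 1 := by
      rintro ⟨d, hd, h⟩
      exact Pool.Agent.U351.CH.sec_of_lr h3 hsm hv hd h
    tfae_have 1 → 4 := fun h => Pool.Agent.U351.CH.par_of_sec (by omega) h3 hsm hv h
    tfae_have 4 → 3 := by
      rintro ⟨e, G, g, w, h1, h2, h3, h4⟩
      obtain ⟨L, hL, ht, htop⟩ := Pool.Agent.N150.CF.one_var (k + m) (Fin.castAdd m ⟨0, hk⟩)
      let ι := algebraMap (MvPolynomial (Fin (k + m)) ℂ)
        (FractionRing (MvPolynomial (Fin (k + m)) ℂ))
      have hC : ∀ z : ℂ, ι (C z) =
          algebraMap ℂ (FractionRing (MvPolynomial (Fin (k + m)) ℂ)) z :=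
        fun z => (IsScalarTower.algebraMap_apply ℂ (MvPolynomial (Fin (k + m)) ℂ)
          (FractionRing (MvPolynomial (Fin (k + m)) ℂ)) z).symm
      refine ⟨FractionRing (MvPolynomial (Fin (k + m)) ℂ), inferInstance, inferInstance, L,
        ι (X (Fin.castAdd m ⟨0, hk⟩)), fun i => ι (G i), ι g, fun a => ι (w a),
        fun i => ι (C (e 0 i) + ∑ j : Fin m, X (Fin.natAdd k j) * C (e j.succ i)), ht, htop,
        h2, ?_, ?_, ?_⟩
      · rw [h3]
        exact IntermediateField.finrank_top
      · intro i
        dsimp only
        simp only [map_add, map_mul, map_sum, hC]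
        refine add_mem (L.algebraMap_mem _) (sum_mem fun j _ => mul_mem (hL _ ?_)
          (L.algebraMap_mem _))
        intro h5
        have h6 := congrArg Fin.val h5
        simp only [Fin.val_natAdd, Fin.val_castAdd] at h6
        omega
      · intro i
        dsimp only
        rw [h4 i, map_add, map_mul, map_sum]
        congr 1
        exact Finset.sum_congr rfl fun a _ => by rw [map_mul, hC]
    tfae_finish

end Pool.Agent.Results.MP_2619d0_ag.LineRuledAllDimensions
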