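import Mathlib
import Pool.Agent.U247.CP.Conv
import Pool.Agent.R845.E3.All

/-!
# Cubic hypersurfaces containing a linear subspace: rational sections and lines

Let `X = (F = 0)` be a smooth cubic hypersurface of dimension `n = k + m` and `W` a linear subspace
of `X` of dimension `k`. The projection from `W` is a fibration of `X` in quadrics of dimension `k`
over `ℙ^m`, and it maps a line of `X` which does not meet `W` to a line of `ℙ^m`: the Fano variety of
lines of `X` is fibred over the Grassmannian of lines of `ℙ^m` (for `k = m = 2` this is the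
Lagrangian fibration of the Fano variety of lines of a cubic fourfold which contains a plane).

The theorem says that the quadric fibration has a rational section if and only if the generic line
of the base lifts to a line in `X` (over the field of rational functions, or over an extension of
odd degree), if and only if for every (or for one) point `p` of the base the generic line through
`p` lifts to a line in `X`; and that nothing of this happens for a very general `X` of dimension at
least three.

Idea of the proof. Over the line `ℓ = {a + t b}`, defined over a field `K`, the quadric fibration is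
given by a quadratic form `φ(c) + l G(c) + l² H` over `K[t]` with `deg φ = 1`, `deg G = 2`,
`deg H = 3`, and a line of `X` over `ℓ` is a zero `(c, 1)` with `c` of degree one. A rational section
gives a zero `(c, l)` with coefficients in `K[t]`. Division with remainder `c = l w + r` and the
second intersection of the quadric with the line joining `(c, l)` to `(w, 1)` give a zero `(c', l')`
with `l l' = φ(r)`, hence `deg l' ≤ 2 (deg l - 1) + 1 - deg l = deg l - 1` (descent of Cassels and
Pfister). For `deg l = 0` one gets a zero `(w, 1)`, and `w` has degree one because the leading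
coefficient of `φ` is an anisotropic form over `K`: this is the polar form of the point `b`, and for
a generic point `b` of the base it is anisotropic since `X` is smooth (a starting file, project LI:
its zeros have even degree). Conversely a family of lines of odd degree gives a rational point of
the generic fibre over an extension of odd degree of a purely transcendental extension of the
function field of the base, and the theorem of Springer applies.
-/

set_option autoImplicit false

namespace Pool.Agent.Results.MP_2619d0_ag.LinesOverLines

open MvPolynomial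

/-- `F` is the equation of a smooth cubic hypersurface of dimension `n`: a cubic form in `n + 2`
variables whose partial derivatives have no common zero besides the origin -/
def SmoothCubic {n : ℕ} (F : MvPolynomial (Fin (n + 2)) ℂ) : Prop :=
  F.IsHomogeneous 3 ∧ ∀ z : Fin (n + 2) → ℂ, (∀ i, eval z (pderiv i F) = 0) → z = 0

/-- The vectors `v 0, …, v k` span a `k`-dimensional linear subspace `W` of the hypersurface
`F = 0`, and `v 0, …, v k, e 0, …, e m` are linearly independent. (For `k + m = n` they are a basis;
the base of the projection from `W` is the projective space with the homogeneous coordinates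
`y 0, …, y m` with respect to `e 0, …, e m`.) -/
def Adapted {n k m : ℕ} (F : MvPolynomial (Fin (n + 2)) ℂ) (v : Fin (k + 1) → Fin (n + 2) → ℂ)
    (e : Fin (m + 1) → Fin (n + 2) → ℂ) : Prop :=
  LinearIndependent ℂ (Fin.append v e) ∧
    ∀ b : Fin (k + 1) → ℂ, eval (fun i => ∑ l, b l * v l i) F = 0

/-- the point `∑ c_a v_a + ∑ y_j e_j`: a point over the point `y` of the base -/
def ptOver {n k m : ℕ} {E : Type} [Field E] [Algebra ℂ E] (v : Fin (k + 1) → Fin (n + 2) → ℂ)
    (e : Fin (m + 1) → Fin (n + 2) → ℂ) (c : Fin (k + 1) → E) (y : Fin (m + 1) → E) :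
    Fin (n + 2) → E :=
  fun i => ∑ a, c a * algebraMap ℂ E (v a i) + ∑ j, y j * algebraMap ℂ E (e j i)

/-- the linear span of the points `x` and `x'` is contained in the hypersurface `F = 0` -/
def LineInside {n : ℕ} {E : Type} [Field E] [Algebra ℂ E] (F : MvPolynomial (Fin (n + 2)) ℂ)
    (x x' : Fin (n + 2) → E) : Prop :=
  ∀ s t : E, aeval (fun i => s * x i + t * x' i) F = 0

/-- The projection from `W` has a rational multisection of degree `d`: there are an extension `E` of
degree `d` of the field of rational functions `ℂ(y_1, …, y_m)` of the base and a point of `X` over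
the generic point `(1, y_1, …, y_m)` of the base with coordinates in `E`. -/
def HasSection {n k m : ℕ} (F : MvPolynomial (Fin (n + 2)) ℂ)
    (v : Fin (k + 1) → Fin (n + 2) → ℂ) (e : Fin (m + 1) → Fin (n + 2) → ℂ) (d : ℕ) : Prop :=
  ∃ (E : Type) (_ : Field E) (_ : Algebra ℂ E) (y : Fin m → E), AlgebraicIndependent ℂ y ∧
    Module.finrank (IntermediateField.adjoin ℂ (Set.range y)) E = d ∧
    ∃ c : Fin (k + 1) → E, aeval (ptOver v e c (Fin.cons 1 y)) F = 0

/-- The generic line of the base lifts with degree `d` to lines in `X`: there are an extension `E` of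
degree `d` of the field `ℂ(a_0, …, a_m, b_0, …, b_m)` and a line in `X`, defined over `E`, through a
point over `a = (a_0, …, a_m)` and a point over `b = (b_0, …, b_m)`. -/
def LiftsGenericLine {n k m : ℕ} (F : MvPolynomial (Fin (n + 2)) ℂ)
    (v : Fin (k + 1) → Fin (n + 2) → ℂ) (e : Fin (m + 1) → Fin (n + 2) → ℂ) (d : ℕ) : Prop :=
  ∃ (E : Type) (_ : Field E) (_ : Algebra ℂ E) (a b : Fin (m + 1) → E),
    AlgebraicIndependent ℂ (Sum.elim a b) ∧
    Module.finrank (IntermediateField.adjoin ℂ (Set.range a ∪ Set.range b)) E = d ∧
    ∃ c c' : Fin (k + 1) → E, LineInside F (ptOver v e c a) (ptOver v e c' b)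

/-- The generic line through the image of `p` under the projection from `W` lifts with degree `d` to
lines in `X`: there are an extension `E` of degree `d` of the field `ℂ(b_0, …, b_m)` and a line in
`X`, defined over `E`, through a point `p + ∑ c_a v_a` and a point over `b = (b_0, …, b_m)`. -/
def LiftsLineThrough {n k m : ℕ} (F : MvPolynomial (Fin (n + 2)) ℂ)
    (v : Fin (k + 1) → Fin (n + 2) → ℂ) (e : Fin (m + 1) → Fin (n + 2) → ℂ)
    (p : Fin (n + 2) → ℂ) (d : ℕ) : Prop :=
  ∃ (E : Type) (_ : Field E) (_ : Algebra ℂ E) (b : Fin (m + 1) → E),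
    AlgebraicIndependent ℂ b ∧
    Module.finrank (IntermediateField.adjoin ℂ (Set.range b)) E = d ∧
    ∃ c c' : Fin (k + 1) → E,
      LineInside F (fun i => algebraMap ℂ E (p i) + ∑ a, c a * algebraMap ℂ E (v a i))
        (ptOver v e c' b)

/-- the coefficients of a cubic form -/
noncomputable def coeffs {n : ℕ} (F : MvPolynomial (Fin (n + 2)) ℂ) :
    {m : Fin (n + 2) →₀ ℕ // m.degree = 3} → ℂ := fun m => coeff m.1 F

/-- (A) Let `X = (F = 0)` be a smooth cubic hypersurface of dimension `n = k + m` and `W` a linear
subspace of `X` of dimension `k`. The following are equivalent: the projection from `W` has a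
rational section; it has a rational multisection of odd degree; the generic line of the base lifts
to a line in `X`; it lifts with some odd degree; for every point `p` outside `W` the generic line
through the image of `p` lifts to a line in `X`; for some `p` outside `W` it lifts with some odd
degree.
(B) For every `n ≥ 3` there is a countable set of nonzero polynomials in the coefficients of a cubic
form in `n + 2` variables such that none of this happens, for any linear subspace `W`, if `F` is
outside their zero sets. -/
theorem result :
    (∀ n k m : ℕ, k + m = n → ∀ F : MvPolynomial (Fin (n + 2)) ℂ, SmoothCubic F →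
      ∀ (v : Fin (k + 1) → Fin (n + 2) → ℂ) (e : Fin (m + 1) → Fin (n + 2) → ℂ),
      Adapted F v e →
      [HasSection F v e 1,
        ∃ d, Odd d ∧ HasSection F v e d,
        LiftsGenericLine F v e 1,
        ∃ d, Odd d ∧ LiftsGenericLine F v e d,
        ∀ p, p ∉ Submodule.span ℂ (Set.range v) → LiftsLineThrough F v e p 1,
        ∃ p, p ∉ Submodule.span ℂ (Set.range v) ∧
          ∃ d, Odd d ∧ LiftsLineThrough F v e p d].TFAE) ∧
    (∀ n : ℕ, 3 ≤ n →
      ∃ Ps : Set (MvPolynomial {m : Fin (n + 2) →₀ ℕ // m.degree = 3} ℂ), Ps.Countable ∧
        (0 : MvPolynomial {m : Fin (n + 2) →₀ ℕ // m.degree = 3} ℂ) ∉ Ps ∧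
        ∀ F : MvPolynomial (Fin (n + 2)) ℂ, SmoothCubic F →
          (∀ P ∈ Ps, eval (coeffs F) P ≠ 0) →
          ∀ k m : ℕ, k + m = n →
          ∀ (v : Fin (k + 1) → Fin (n + 2) → ℂ) (e : Fin (m + 1) → Fin (n + 2) → ℂ),
          Adapted F v e → ∀ d, Odd d →
          ¬ HasSection F v e d ∧ ¬ LiftsGenericLine F v e d ∧
            ∀ p, ¬ LiftsLineThrough F v e p d) := by
  refine ⟨?_, ?_⟩
  · intro n k m hkm F hF v e hve
    have h := Pool.Agent.U247.CP.tfae (k := k) (m := m) (by omega) hF.1 hF.2 hve.2 hve.1
    have he : e 0 ∉ Submodule.span ℂ (Set.range v) := by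
      have h1 := hve.1.notMem_span_image (s := Set.range (Fin.castAdd (m + 1)))
        (x := Fin.natAdd (k + 1) 0) (by
          rintro ⟨a, ha⟩
          have := congrArg Fin.val ha
          simp only [Fin.val_natAdd, Fin.val_castAdd] at this
          omega)
      rw [Fin.append_right, ← Set.range_comp] at h1
      have h2 : Fin.append v e ∘ Fin.castAdd (m + 1) = v := by
        funext a
        exact Fin.append_left _ _ _
      rwa [h2] at h1
    have h12 := h.out 0 1
    have h13 := h.out 0 2
    have h14 := h.out 0 3
    have h15 := h.out 0 4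
    have h16 := h.out 0 5
    tfae_have 1 ↔ 2 := h12
    tfae_have 1 ↔ 3 := h13
    tfae_have 1 ↔ 4 := h14
    tfae_have 1 → 5 := fun hs p _ => h15.1 hs p
    tfae_have 5 → 6 := fun hs => ⟨e 0, he, 1, odd_one, hs _ he⟩
    tfae_have 6 → 1 := by
      rintro ⟨p, -, d, hd, hs⟩
      exact h16.2 ⟨p, d, hd, hs⟩
    tfae_finish
  · intro n hn
    obtain ⟨Ps, h1, h2, h3⟩ := Pool.Agent.R845.VG.very_general (n + 2) 3
    refine ⟨Ps, h1, h2, fun F hF hP k m hkm v e hve d hd => ?_⟩
    have h := Pool.Agent.U247.CP.tfae (k := k) (m := m) (by omega) hF.1 hF.2 hve.2 hve.1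
    have h0 := Pool.Agent.U247.CP.no_sec hn Pool.Agent.R845.E3.at_all hkm hF.1 hF.2 (h3 F hP)
      hve.2 hve.1
    have h01 := h.out 0 1
    have h03 := h.out 0 3
    have h05 := h.out 0 5
    exact ⟨fun hs => h0 (h01.2 ⟨d, hd, hs⟩), fun hs => h0 (h03.2 ⟨d, hd, hs⟩),
      fun p hs => h0 (h05.2 ⟨p, d, hd, hs⟩)⟩

end Pool.Agent.Results.MP_2619d0_ag.LinesOverLines
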