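import Pool.Agent.U221.VG.Fin
import Pool.Agent.U221.VG.Smo

/-!
# The very general cubic hypersurface containing a linear subspace

Let `n ≥ 3`, `2 p ≤ n`, and let `P` be a fixed linear subspace of dimension `p` of the projective
space of dimension `n + 1` (in coordinates: `x_j = 0` for `j > p`). Let `X = (F = 0)` be a very
general cubic hypersurface of dimension `n` **which contains `P`**. Then `X` is smooth, and:

* (A) for every linear subspace `V ⊆ X` of dimension `k ≥ 1` (not only for `V = P`) the projection
  of `X` from `V`, a quadric bundle over the projective space of dimension `n - k`, has no rational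
  section;
* (B) for every linear subspace `W` of `X` (possibly empty) every family of rational curves whose
  images under the projection from `W` are lines or points has even degree over `X`;
* (C) every dominant rational map from the affine space of dimension `n` to `X` given by polynomials
  of degree at most three has positive even degree.

For cubic hypersurfaces without the condition `P ⊆ X` the assertions (B), (C) are the starting
results `SectionsOverLines`, `CubicMapsEvenDegree`, and the case `n = 4`, `p = 2` of (B) is the
starting result `MP_6fa476_ag.VeryGeneralWithPlane`. The cubic hypersurfaces containing a linear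
subspace of dimension `p` are exactly those for which a section or a parametrization of odd degree
could come from the known subspace `P` (for instance `X` is rational if it contains two disjoint
linear subspaces of dimension `n / 2`).

Idea of the proof. By the theorem for all smooth cubic hypersurfaces (the hand-in
`LineRuledAllDimensions`) it is enough to prove (A). One uses coordinates which are adapted to `V` and
to `P` at the same time (so the matrices of the linear subspaces `V` have a prescribed pattern of
zeros), counts transcendence degrees, moves `V` (with fixed dimension of `V ∩ P`) to a generic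
position, and specializes to the form `∑ y_{σ i} u_i ^ 2 + y_a y_b y_c`, which vanishes on `V` and on
`P` and gives an anisotropic quadratic form over the field of rational functions in `y`.
-/

set_option autoImplicit false

namespace Pool.Agent.Results.MP_2619d0_ag.VeryGeneralWithSubspace

open MvPolynomial

/-- `F = 0` is a smooth hypersurface: the partial derivatives of `F` have no common zero besides the
origin. -/
def Smooth {N : ℕ} (F : MvPolynomial (Fin N) ℂ) : Prop :=
  ∀ z : Fin N → ℂ, (∀ i, eval z (pderiv i F) = 0) → z = 0

/-- the hypersurface `F = 0` contains the linear subspace `P = (x_j = 0 for j > p)` of dimension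
`p` -/
def ContainsP {n : ℕ} (p : ℕ) (F : MvPolynomial (Fin (n + 2)) ℂ) : Prop :=
  ∀ z : Fin (n + 2) → ℂ, (∀ j : Fin (n + 2), p < j.val → z j = 0) → eval z F = 0

/-- the exponents of the cubic monomials in `n + 2` variables which involve at least one of the
variables `x_j` with `j > p` -/
abbrev Exponents (n p : ℕ) : Type :=
  {α : Fin (n + 2) →₀ ℕ // α.degree = 3 ∧ ∃ j : Fin (n + 2), p < j.val ∧ α j ≠ 0}

/-- the coefficients of a cubic form which vanishes on `P` -/
noncomputable def coefficients {n : ℕ} (p : ℕ) (F : MvPolynomial (Fin (n + 2)) ℂ) :
    Exponents n p → ℂ := fun α => coeff α.1 F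

/-- `x` is a generic point of the hypersurface `F = 0` with coordinates in an extension field `M` of
the complex numbers: `F` vanishes at `x`, and every form vanishing at `x` is divisible by `F`. -/
def GenericPoint {N : ℕ} {M : Type} [Field M] [Algebra ℂ M] (F : MvPolynomial (Fin N) ℂ)
    (x : Fin N → M) : Prop :=
  aeval x F = 0 ∧ ∀ (e : ℕ) (H : MvPolynomial (Fin N) ℂ), H.IsHomogeneous e →
    aeval x H = 0 → F ∣ H

/-- the field generated over `ℂ` by the ratios of the coordinates of `x`; for a generic point of `X`
it is the function field of `X` -/
noncomputable def functionField {N : ℕ} {M : Type} [Field M] [Algebra ℂ M] (x : Fin N → M) :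
    IntermediateField ℂ M :=
  IntermediateField.adjoin ℂ {z | ∃ i j, z = x i / x j}

/-- the linear span of the vectors `A 0, …, A (r - 1)` is contained in the hypersurface `F = 0` -/
def SpanInside {N r : ℕ} (F : MvPolynomial (Fin N) ℂ) (A : Fin r → Fin N → ℂ) : Prop :=
  ∀ a : Fin r → ℂ, eval (fun i => ∑ l, a l * A l i) F = 0

/-- the vectors `v 0, …, v k` are linearly independent, and the linear subspace of (projective)
dimension `k` which they span is contained in `F = 0` -/
def LinearInside {N k : ℕ} (F : MvPolynomial (Fin N) ℂ) (v : Fin (k + 1) → Fin N → ℂ) : Prop :=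
  LinearIndependent ℂ v ∧ SpanInside F v

/-- There is a family of rational curves on `F = 0`, with field of parameters `L` and `M = L(t)`, of
degree `d` over the hypersurface (a generic point `x` over `M` such that `M` has degree `d` over the
function field), whose image under the projection from the span `W` of the vectors `A l` is a line or
a point over `L`: modulo `W` the point `x` is proportional to `t β + γ` with `β`, `γ` over `L`. -/
def LineRuled {N r : ℕ} (F : MvPolynomial (Fin N) ℂ) (A : Fin r → Fin N → ℂ) (d : ℕ) : Prop :=
  ∃ (M : Type) (_ : Field M) (_ : Algebra ℂ M) (L : IntermediateField ℂ M) (t : M)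
    (x : Fin N → M) (s : M) (w : Fin r → M) (β γ : Fin N → M), Transcendental L t ∧
    IntermediateField.adjoin L {t} = ⊤ ∧ GenericPoint F x ∧
    Module.finrank (functionField x) M = d ∧ (∀ i, β i ∈ L) ∧ (∀ i, γ i ∈ L) ∧
    ∀ i, x i = s * (t * β i + γ i) + ∑ l, w l * algebraMap ℂ M (A l i)

/-- The projection of the hypersurface from the span of `v 0, …, v k` has a rational section: for a
complement `e 0, …, e m` of the span there are rational functions `c 0, …, c k` in the `m` variables
`X_0, …, X_{m-1}` such that `F` vanishes at `∑ c_a v_a + e_0 + X_0 e_1 + … + X_{m-1} e_m`. -/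
def HasSection (m : ℕ) {N k : ℕ} (F : MvPolynomial (Fin N) ℂ) (v : Fin (k + 1) → Fin N → ℂ) :
    Prop :=
  ∃ e : Fin (m + 1) → Fin N → ℂ, LinearIndependent ℂ (Fin.append v e) ∧
    ∃ c : Fin (k + 1) → FractionRing (MvPolynomial (Fin m) ℂ),
      aeval (fun i => ∑ a, c a * algebraMap ℂ (FractionRing (MvPolynomial (Fin m) ℂ)) (v a i) +
        (algebraMap ℂ (FractionRing (MvPolynomial (Fin m) ℂ)) (e 0 i) +
          ∑ j : Fin m, algebraMap (MvPolynomial (Fin m) ℂ)
              (FractionRing (MvPolynomial (Fin m) ℂ)) (X j) *
            algebraMap ℂ (FractionRing (MvPolynomial (Fin m) ℂ)) (e j.succ i))) F = 0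

/-- The tuple `G` of polynomials in `n` variables gives a dominant rational map to the
hypersurface `F = 0`: `F` vanishes at `G`, and every form vanishing at `G` is divisible by `F`. -/
def Dominant {n : ℕ} (F : MvPolynomial (Fin (n + 2)) ℂ)
    (G : Fin (n + 2) → MvPolynomial (Fin n) ℂ) : Prop :=
  aeval G F = 0 ∧ ∀ (e : ℕ) (H : MvPolynomial (Fin (n + 2)) ℂ), H.IsHomogeneous e →
    aeval G H = 0 → F ∣ H

/-- the degree of the map given by `G`: the degree of the field of rational functions
`ℂ(t_1, …, t_n)` over its subfield generated over `ℂ` by all ratios `G i / G j` -/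
noncomputable def mapDegree {n : ℕ} (G : Fin (n + 2) → MvPolynomial (Fin n) ℂ) : ℕ :=
  Module.finrank (functionField fun i => algebraMap (MvPolynomial (Fin n) ℂ)
    (FractionRing (MvPolynomial (Fin n) ℂ)) (G i)) (FractionRing (MvPolynomial (Fin n) ℂ))

/-- **The very general cubic hypersurface of dimension `n ≥ 3` which contains a fixed linear subspace
`P` of dimension `p ≤ n / 2`.** There is a countable set of nonzero polynomials in the coefficients of
the cubic forms which vanish on `P` such that the following holds for every cubic form `F` which
vanishes on `P` and at whose coefficients none of these polynomials vanishes: `F = 0` is smooth, and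

(A) no linear subspace of dimension `k ≥ 1` of `F = 0` has a projection with a rational section;

(B) for every linear subspace `W` of `F = 0` (the span of `r ≥ 0` vectors) every family of rational
curves whose images under the projection from `W` are lines or points has even degree (or infinite
degree, `d = 0`) over `F = 0`;

(C) every dominant rational map given by polynomials of degree at most three in `n` variables has
positive even degree. -/
theorem result (n p : ℕ) (hn : 3 ≤ n) (hp : 2 * p ≤ n) :
    ∃ Ps : Set (MvPolynomial (Exponents n p) ℂ), Ps.Countable ∧ 0 ∉ Ps ∧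
      ∀ F : MvPolynomial (Fin (n + 2)) ℂ, F.IsHomogeneous 3 → ContainsP p F →
        (∀ P ∈ Ps, eval (coefficients p F) P ≠ 0) →
        Smooth F ∧
        (∀ (k m : ℕ) (v : Fin (k + 1) → Fin (n + 2) → ℂ), k + m = n → 1 ≤ k → LinearInside F v →
          ¬ HasSection m F v) ∧
        (∀ (r : ℕ) (A : Fin r → Fin (n + 2) → ℂ) (d : ℕ), SpanInside F A → LineRuled F A d →
          Even d) ∧
        ∀ G : Fin (n + 2) → MvPolynomial (Fin n) ℂ, (∀ i, (G i).totalDegree ≤ 3) →
          Dominant F G → 0 < mapDegree G ∧ Even (mapDegree G) := by
  classical
  have hfin : Finite (Exponents n p) := by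
    have := Pool.Agent.R845.E3.finite_degree (n + 2) 3
    exact Finite.of_injective (fun β : Exponents n p =>
      (⟨β.1, β.2.1⟩ : {γ : Fin (n + 2) →₀ ℕ // γ.degree = 3})) (by
        intro a b hab
        exact Subtype.ext (by simpa using hab))
  have hc : Countable (MvPolynomial (Exponents n p) ℚ) := by
    have := Finite.to_countable (α := Exponents n p)
    rw [← Cardinal.mk_le_aleph0_iff]
    refine MvPolynomial.cardinalMk_le_max.trans ?_
    rw [max_le_iff, max_le_iff]
    exact ⟨⟨Cardinal.mk_le_aleph0, Cardinal.mk_le_aleph0⟩, le_rfl⟩
  refine ⟨(fun P => map (algebraMap ℚ ℂ) P) '' {P | P ≠ 0}, (Set.to_countable _).image _, ?_, ?_⟩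
  · rintro ⟨P, hP, h0⟩
    apply hP
    exact (map_injective _ (algebraMap ℚ ℂ).injective) (h0.trans (map_zero _).symm)
  · intro F hF hPl hPs
    have hind : AlgebraicIndependent ℚ (coefficients p F) := by
      rw [algebraicIndependent_iff]
      intro P hP
      by_contra hP0
      apply hPs _ ⟨P, hP0, rfl⟩
      rw [eval_map, ← aeval_def]
      exact hP
    let Q : Fin (n + 2) → Prop := fun j => ¬ p < j.val
    have hQ : Pool.Agent.U221.VG.VanQ Q F :=
      Pool.Agent.U221.VG.vanQ_of_eval fun z hz => hPl z fun j hj => hz j (not_not.2 hj)
    have hQc : 2 * Nat.card {a // Q a} ≤ n + 2 := by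
      have h1 : Nat.card {a // Q a} ≤ Nat.card (Fin (p + 1)) :=
        Nat.card_le_card_of_injective (fun a : {a // Q a} =>
          (⟨a.1.val, Nat.lt_succ_of_le (not_lt.1 a.2)⟩ : Fin (p + 1))) (by
            intro a b hab
            exact Subtype.ext (Fin.ext (by simpa using hab)))
      rw [Nat.card_eq_fintype_card (α := Fin (p + 1)), Fintype.card_fin] at h1
      omega
    have hind2 : AlgebraicIndependent ℚ
        (fun β : Pool.Agent.U221.VG.MQ Q => coeff β.1 F) := by
      let e : Pool.Agent.U221.VG.MQ Q → Exponents n p := fun β => ⟨β.1, β.2.1, by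
        obtain ⟨j, hj, h⟩ := β.2.2
        exact ⟨j, not_not.1 hj, h⟩⟩
      exact hind.comp e (by
        intro a b hab
        exact Subtype.ext (congrArg (fun z : Exponents n p => z.1) hab))
    have hsm : Pool.Agent.R845.E3.Sm F := Pool.Agent.U221.VG.smooth_of_ind Q hQc hF hQ hind2
    have hno : ∀ (k m : ℕ) (v : Fin (k + 1) → Fin (n + 2) → ℂ), k + m = n → 1 ≤ k →
        LinearInside F v → ¬ HasSection m F v := by
      intro k m v hkm hk hv hs
      exact Pool.Agent.U221.VG.no_sec hn Q hQc hF hsm hQ hind2 hkm hk v hv hs
    refine ⟨hsm, hno, ?_, ?_⟩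
    · intro r A d hA h
      by_contra hd
      obtain ⟨k, m, v, a1, a2, -, a4, -, a6⟩ :=
        Pool.Agent.U351.CH.of_lr hn hF hsm A hA (Nat.not_even_iff_odd.1 hd) h
      exact hno k m v a1 a2 a4 a6
    · intro G hG hdom
      refine ⟨?_, ?_⟩
      · obtain ⟨h1, -⟩ := Pool.Agent.TH314.PD.bound (k := 3) (by norm_num) F hF hsm G hG hdom.1
          hdom.2
        have h3 : 0 < Module.finrank (Pool.Agent.TH314.PD.ratioField fun i =>
            algebraMap (MvPolynomial (Fin n) ℂ) (FractionRing (MvPolynomial (Fin n) ℂ)) (G i))
            (FractionRing (MvPolynomial (Fin n) ℂ)) := Module.finrank_pos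
        exact h3
      · by_contra hd
        obtain ⟨k, m, v, a1, a2, -, a4, a6⟩ :=
          Pool.Agent.U351.CH.of_cub hn hF hsm G hG hdom.1 hdom.2 (Nat.not_even_iff_odd.1 hd)
        exact hno k m v a1 a2 a4 a6

end Pool.Agent.Results.MP_2619d0_ag.VeryGeneralWithSubspace
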